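import Pool.Agent.Helper57.KE.St
import Pool.Agent.Helper57.KR.K2

/-!
# Project KE (MP_45ac3c_an): the one-sided kernel (ONE)
-/

set_option autoImplicit false

open scoped BigOperators
open Finset

namespace Pool.Agent.Helper80.KE

open Pool.Agent.Helper57.KE Pool.Agent.Helper57.KR Pool.Agent.Helper65.RG

/-- the sequence `R` -/
private noncomputable def RR (k θ δ : ℝ) (i0 j : ℕ) : ℝ :=
  ∏ l ∈ range j, ((1 + k / ((l : ℝ) + i0)) * (1 - θ * δ))

private lemma RR_zero (k θ δ : ℝ) (i0 : ℕ) : RR k θ δ i0 0 = 1 := by simp [RR]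

private lemma RR_succ (k θ δ : ℝ) (i0 j : ℕ) :
    RR k θ δ i0 (j + 1) = RR k θ δ i0 j * ((1 + k / ((j : ℝ) + i0)) * (1 - θ * δ)) := by
  simp [RR, prod_range_succ]

private lemma RR_pos {k θ δ : ℝ} {i0 : ℕ} (hk : 0 < k) (hi : 1 ≤ i0) (h : 0 < 1 - θ * δ)
    (j : ℕ) : 0 < RR k θ δ i0 j := by
  unfold RR
  refine prod_pos fun l _ => ?_
  have h1 : (0 : ℝ) < i0 := by exact_mod_cast hi
  have h2 : (0 : ℝ) < (l : ℝ) + i0 := by positivity
  have h3 : 0 < k / ((l : ℝ) + i0) := div_pos hk h2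
  exact mul_pos (by linarith) h

private lemma vv_pos {a : ℝ} {i0 : ℕ} (ha : 0 < a) (hi : 1 ≤ i0) (M j : ℕ) :
    0 < vv a i0 M j := by
  unfold vv
  refine prod_pos fun l _ => ?_
  have h1 : (0 : ℝ) < i0 := by exact_mod_cast hi
  positivity

private lemma vv_succ_le {a : ℝ} {i0 : ℕ} (ha : 0 < a) (hi : 1 ≤ i0) (M j : ℕ) :
    vv a i0 M (j + 1) ≤ vv a i0 M j * (1 + 2 * a / ((j : ℝ) + i0)) := by
  have h1 : (0 : ℝ) < i0 := by exact_mod_cast hi
  have h2 : (0 : ℝ) ≤ 2 * a / ((j : ℝ) + i0) := by positivity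
  rcases Nat.lt_or_ge j M with h | h
  · have e1 : min (j + 1) M = j + 1 := by omega
    have e2 : min j M = j := by omega
    unfold vv
    rw [e1, e2, prod_range_succ]
  · have e1 : min (j + 1) M = M := by omega
    have e2 : min j M = M := by omega
    have h3 := vv_pos ha hi M j
    have e3 : vv a i0 M (j + 1) = vv a i0 M j := by
      unfold vv
      rw [e1, e2]
    rw [e3]
    nlinarith

/-- the telescoping sum -/
private lemma tele (q δ C : ℝ) (R : ℕ → ℝ) (hq : q * (1 + δ) = 1) (i : ℕ) :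
    ∑ j ∈ range (i + 1), q ^ (i - j + 1) * (C * ((1 + δ) * R j - sh R j)) = C * R i := by
  induction i with
  | zero =>
    simp only [zero_add, range_one, sum_singleton, Nat.sub_zero, pow_one, sh, if_true, sub_zero]
    linear_combination (C * R 0) * hq
  | succ i ih =>
    rw [sum_range_succ]
    have e1 : ∑ j ∈ range (i + 1), q ^ (i + 1 - j + 1) * (C * ((1 + δ) * R j - sh R j)) =
        q * (C * R i) := by
      rw [← ih, mul_sum]
      refine sum_congr rfl fun j hj => ?_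
      have hj' : j ≤ i := by
        have := mem_range.mp hj
        omega
      have e2 : i + 1 - j + 1 = (i - j + 1) + 1 := by omega
      rw [e2, pow_succ]
      ring
    rw [e1]
    have e3 : sh R (i + 1) = R i := by simp [sh]
    rw [e3]
    have e4 : i + 1 - (i + 1) + 1 = 1 := by omega
    rw [e4, pow_one]
    linear_combination (C * R (i + 1)) * hq

/-- the backward induction -/
private lemma back (q δ : ℝ) (w Z : ℕ → ℝ) (hq0 : 0 ≤ q) (hq : q * (1 + δ) = 1)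
    (hZ : ∀ j, 0 ≤ Z j) (hs : ∀ j, w j + Z (j + 1) ≤ (1 + δ) * Z j) (m : ℕ) :
    ∀ j, ∑ i ∈ range m, q ^ (i + 1) * w (j + i) ≤ Z j := by
  induction m with
  | zero =>
    intro j
    simpa using hZ j
  | succ m ih =>
    intro j
    rw [sum_range_succ']
    have e1 : ∑ i ∈ range m, q ^ (i + 1 + 1) * w (j + (i + 1)) =
        q * ∑ i ∈ range m, q ^ (i + 1) * w ((j + 1) + i) := by
      rw [mul_sum]
      refine sum_congr rfl fun i _ => ?_
      have e2 : j + (i + 1) = (j + 1) + i := by omega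
      rw [e2, pow_succ]
      ring
    rw [e1]
    have h1 := ih (j + 1)
    have h2 := hs j
    have h3 : q * (∑ i ∈ range m, q ^ (i + 1) * w ((j + 1) + i)) ≤ q * Z (j + 1) :=
      mul_le_mul_of_nonneg_left h1 hq0
    have h4 : q * (w j + Z (j + 1)) ≤ q * ((1 + δ) * Z j) := mul_le_mul_of_nonneg_left h2 hq0
    have h5 : q * ((1 + δ) * Z j) = Z j := by linear_combination Z j * hq
    have e6 : q ^ (0 + 1) * w (j + 0) = q * w j := by simp
    rw [e6]
    nlinarith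

theorem hONE : StONE := by
  intro hSCH hPOL c a hc ha hac
  obtain ⟨k, θ, δ1, i1, hk, hk1, hθ, hθ1, hδ1, hδ11, hi1, hP⟩ := hPOL c a hc ha hac
  refine ⟨δ1, i1, hδ1, hδ11, by omega, ?_⟩
  intro i0 hi0 M N δ hδ hδδ
  have hi0' : 1 ≤ i0 := by omega
  have hc0 : 0 < c := by linarith
  have hi0r : (2 : ℝ) ≤ i0 := by exact_mod_cast (by omega : 2 ≤ i0)
  have hi1r : (i1 : ℝ) ≤ i0 := by exact_mod_cast hi0
  obtain ⟨_, hA, hB⟩ := hP i1 δ le_rfl hδ hδδ
  set q : ℝ := (1 + δ)⁻¹ with hq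
  have hq0 : 0 < q := by rw [hq]; positivity
  have hq1 : q * (1 + δ) = 1 := by
    rw [hq]
    exact inv_mul_cancel₀ (by positivity)
  have hC : 0 < c * δ⁻¹ := by positivity
  set R : ℕ → ℝ := RR k θ δ i0 with hR
  have hR0 : R 0 = 1 := by rw [hR]; exact RR_zero _ _ _ _
  have hRp : ∀ j, 0 < R j := fun j => RR_pos hk hi0' hB j
  have hRs : ∀ j : ℕ, R (j + 1) = R j * ((1 + k / ((j : ℝ) + i0)) * (1 - θ * δ)) :=
    fun j => RR_succ _ _ _ _ _
  set v : ℕ → ℝ := vv a i0 M with hv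
  have hvp : ∀ j, 0 < v j := fun j => vv_pos ha hi0' M j
  have hvs : ∀ j : ℕ, v (j + 1) ≤ v j * (1 + 2 * a / ((j : ℝ) + i0)) :=
    fun j => vv_succ_le ha hi0' M j
  have hphp : ∀ j, 0 < ph a i0 M j := fun j => Real.sqrt_pos.mpr (hvp j)
  have hph2 : ∀ j, ph a i0 M j * ph a i0 M j = v j := fun j =>
    Real.mul_self_sqrt (hvp j).le
  -- growth of R
  have hRg : ∀ j : ℕ, 1 ≤ (1 + δ) * ((1 + k / ((j : ℝ) + i0)) * (1 - θ * δ)) := by
    intro j
    have h1 : (0 : ℝ) < (j : ℝ) + i0 := by positivity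
    have h2 : 0 < k / ((j : ℝ) + i0) := div_pos hk h1
    have h3 : (1 + δ) * ((1 + k / ((j : ℝ) + i0)) * (1 - θ * δ)) =
        ((1 + δ) * (1 - θ * δ)) * (1 + k / ((j : ℝ) + i0)) := by ring
    rw [h3]
    nlinarith
  have hRg' : ∀ j : ℕ, 1 < (1 + δ) * ((1 + k / ((j : ℝ) + i0)) * (1 - θ * δ)) := by
    intro j
    have h1 : (0 : ℝ) < (j : ℝ) + i0 := by positivity
    have h2 : 0 < k / ((j : ℝ) + i0) := div_pos hk h1
    have h3 : (1 + δ) * ((1 + k / ((j : ℝ) + i0)) * (1 - θ * δ)) =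
        ((1 + δ) * (1 - θ * δ)) * (1 + k / ((j : ℝ) + i0)) := by ring
    rw [h3]
    nlinarith
  have hDp : ∀ j, 0 < (1 + δ) * R j - sh R j := by
    intro j
    rcases j with _ | j
    · simp only [sh, if_true, hR0]
      linarith
    · have e3 : sh R (j + 1) = R j := by simp [sh]
      rw [e3, hRs j]
      have h1 := hRg' j
      have h2 := hRp j
      nlinarith
  -- the step
  have hstep : ∀ j : ℕ, v j * R j +
      (c * δ⁻¹) * (v (j + 1) * ((c * δ⁻¹) * ((1 + δ) * R (j + 1) - sh R (j + 1)))) ≤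
      (1 + δ) * ((c * δ⁻¹) * (v j * ((c * δ⁻¹) * ((1 + δ) * R j - sh R j)))) := by
    intro j
    set x : ℝ := (j : ℝ) + i0 with hx
    have hx2 : 2 ≤ x := by
      have : (0 : ℝ) ≤ j := Nat.cast_nonneg j
      rw [hx]; linarith
    have hxi : (i1 : ℝ) ≤ x := by
      have : (0 : ℝ) ≤ j := Nat.cast_nonneg j
      rw [hx]; linarith
    obtain ⟨hE, -, -⟩ := hP x δ hxi hδ hδδ
    set ρ : ℝ := (1 + k / x) * (1 - θ * δ) with hρ
    set G : ℝ := (x - 1) / ((x - 1 + k) * (1 - θ * δ)) with hG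
    have hG0 : 0 ≤ G := by
      rw [hG]
      have : 0 < x - 1 := by linarith
      positivity
    have hsh : sh R j ≤ G * R j := by
      rcases j with _ | j
      · simp only [sh, if_true]
        exact mul_nonneg hG0 (hRp _).le
      · have e3 : sh R (j + 1) = R j := by simp [sh]
        rw [e3, hRs j]
        have e4 : x - 1 = (j : ℝ) + i0 := by rw [hx]; push_cast; ring
        rw [hG, e4]
        have h1 : (0 : ℝ) < (j : ℝ) + i0 := by positivity
        have h2 : ((j : ℝ) + i0) / (((j : ℝ) + i0 + k) * (1 - θ * δ)) *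
            (R j * ((1 + k / ((j : ℝ) + i0)) * (1 - θ * δ))) = R j := by
          have h3 : (j : ℝ) + i0 + k ≠ 0 := by positivity
          field_simp
        rw [h2]
    have hs1 : sh R (j + 1) = R j := by simp [sh]
    rw [hs1, hRs j]
    have hρ1 : 1 ≤ (1 + δ) * ρ := hRg j
    have hv1 := hvs j
    have hvj := hvp j
    have hRj := hRp j
    have e5 : (1 + δ) * (R j * ρ) - R j = ((1 + δ) * ρ - 1) * R j := by ring
    rw [e5]
    -- multiply everything
    have hC2 : 0 < (c * δ⁻¹) * (c * δ⁻¹) := mul_pos hC hC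
    have hE2 : 1 + (c * δ⁻¹) * (c * δ⁻¹) * ((1 + 2 * a / x) * ((1 + δ) * ρ - 1)) ≤
        (c * δ⁻¹) * (c * δ⁻¹) * ((1 + δ) * ((1 + δ) - G)) := by
      have h6 : (c * δ⁻¹) * (c * δ⁻¹) * (δ ^ 2 / c ^ 2) = 1 := by
        field_simp
      have h7 := mul_le_mul_of_nonneg_left hE hC2.le
      rw [h6] at h7
      have h8 : (c * δ⁻¹) * (c * δ⁻¹) * ((1 + δ) ^ 2 - (1 + δ) * G -
          (1 + 2 * a / x) * ((1 + δ) * ρ - 1)) =
          (c * δ⁻¹) * (c * δ⁻¹) * ((1 + δ) * ((1 + δ) - G)) -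
          (c * δ⁻¹) * (c * δ⁻¹) * ((1 + 2 * a / x) * ((1 + δ) * ρ - 1)) := by ring
      rw [h8] at h7
      linarith
    have hvR : 0 < v j * R j := mul_pos hvj hRj
    have h9 : v j * R j * (1 + (c * δ⁻¹) * (c * δ⁻¹) * ((1 + 2 * a / x) * ((1 + δ) * ρ - 1))) ≤
        v j * R j * ((c * δ⁻¹) * (c * δ⁻¹) * ((1 + δ) * ((1 + δ) - G))) :=
      mul_le_mul_of_nonneg_left hE2 hvR.le
    have h10 : (c * δ⁻¹) * (c * δ⁻¹) * (((1 + δ) * ρ - 1) * R j) * v (j + 1) ≤
        (c * δ⁻¹) * (c * δ⁻¹) * (((1 + δ) * ρ - 1) * R j) * (v j * (1 + 2 * a / x)) := by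
      refine mul_le_mul_of_nonneg_left hv1 ?_
      exact mul_nonneg hC2.le (mul_nonneg (by linarith) hRj.le)
    have h11 : (1 + δ) * ((c * δ⁻¹) * (c * δ⁻¹)) * v j * ((1 + δ) * R j - G * R j) ≤
        (1 + δ) * ((c * δ⁻¹) * (c * δ⁻¹)) * v j * ((1 + δ) * R j - sh R j) := by
      refine mul_le_mul_of_nonneg_left (by linarith) ?_
      positivity
    calc v j * R j + (c * δ⁻¹) * (v (j + 1) * ((c * δ⁻¹) * (((1 + δ) * ρ - 1) * R j)))
        = v j * R j + (c * δ⁻¹) * (c * δ⁻¹) * (((1 + δ) * ρ - 1) * R j) * v (j + 1) := by ring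
      _ ≤ v j * R j +
          (c * δ⁻¹) * (c * δ⁻¹) * (((1 + δ) * ρ - 1) * R j) * (v j * (1 + 2 * a / x)) := by
          linarith
      _ = v j * R j *
          (1 + (c * δ⁻¹) * (c * δ⁻¹) * ((1 + 2 * a / x) * ((1 + δ) * ρ - 1))) := by ring
      _ ≤ v j * R j * ((c * δ⁻¹) * (c * δ⁻¹) * ((1 + δ) * ((1 + δ) - G))) := h9
      _ = (1 + δ) * ((c * δ⁻¹) * (c * δ⁻¹)) * v j * ((1 + δ) * R j - G * R j) := by ring
      _ ≤ (1 + δ) * ((c * δ⁻¹) * (c * δ⁻¹)) * v j * ((1 + δ) * R j - sh R j) := h11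
      _ = (1 + δ) * ((c * δ⁻¹) * (v j * ((c * δ⁻¹) * ((1 + δ) * R j - sh R j)))) := by ring
  have hback := back q δ (fun j => v j * R j)
    (fun j => (c * δ⁻¹) * (v j * ((c * δ⁻¹) * ((1 + δ) * R j - sh R j)))) hq0.le hq1
    (fun j => by
      have h1 := hDp j
      have h2 := hvp j
      positivity) hstep
  refine hSCH (N + 1) _ (fun j => ph a i0 M j * ((c * δ⁻¹) * ((1 + δ) * R j - sh R j)))
    (fun i => ph a i0 M i * R i) (c * δ⁻¹) hC.le ?_ ?_ ?_ ?_ ?_
  · intro i j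
    have h1 := hphp i
    have h2 := hphp j
    exact mul_nonneg (k1_nonneg hδ _ _) (by positivity)
  · intro j
    have h1 := hphp j
    have h2 := hDp j
    positivity
  · intro i
    exact mul_pos (hphp i) (hRp i)
  · intro i
    have e1 : ∀ j : Fin (N + 1), k1 δ i j * (ph a i0 M i / ph a i0 M j) *
        (ph a i0 M j * ((c * δ⁻¹) * ((1 + δ) * R j - sh R j))) =
        ph a i0 M i * (if (j : ℕ) < (i : ℕ) + 1 then
          q ^ ((i : ℕ) - j + 1) * ((c * δ⁻¹) * ((1 + δ) * R j - sh R j)) else 0) := by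
      intro j
      have h2 := (hphp j).ne'
      unfold k1
      by_cases hji : (j : ℕ) ≤ (i : ℕ)
      · rw [if_pos hji, if_pos (by omega), ← hq]
        field_simp
      · rw [if_neg hji, if_neg (by omega)]
        ring
    have e2 : ∑ j : Fin (N + 1), k1 δ i j * (ph a i0 M i / ph a i0 M j) *
        (ph a i0 M j * ((c * δ⁻¹) * ((1 + δ) * R j - sh R j))) =
        ph a i0 M i * ((c * δ⁻¹) * R i) := by
      rw [sum_congr rfl fun j _ => e1 j, ← mul_sum]
      congr 1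
      rw [sum_fin_lt (f := fun j : ℕ =>
        q ^ ((i : ℕ) - j + 1) * ((c * δ⁻¹) * ((1 + δ) * R j - sh R j))) (by
          have := i.isLt
          omega)]
      exact tele q δ (c * δ⁻¹) R hq1 i
    refine le_of_eq (e2.trans ?_)
    ring
  · intro j
    have hpj := hphp j
    have e1 : ∀ i : Fin (N + 1), k1 δ i j * (ph a i0 M i / ph a i0 M j) *
        (ph a i0 M i * R i) =
        (ph a i0 M j)⁻¹ * (if (j : ℕ) ≤ (i : ℕ) then
          q ^ ((i : ℕ) - j + 1) * (v i * R i) else 0) := by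
      intro i
      unfold k1
      by_cases hji : (j : ℕ) ≤ (i : ℕ)
      · rw [if_pos hji, if_pos hji, ← hq, ← hph2 i]
        field_simp
      · rw [if_neg hji, if_neg hji]
        ring
    have e2 : ∑ i : Fin (N + 1), k1 δ i j * (ph a i0 M i / ph a i0 M j) *
        (ph a i0 M i * R i) =
        (ph a i0 M j)⁻¹ * ∑ i ∈ range (N + 1 - j), q ^ (i + 1) * (v (j + i) * R (j + i)) := by
      rw [sum_congr rfl fun i _ => e1 i, ← mul_sum]
      congr 1
      rw [sum_fin_ge (f := fun i : ℕ => q ^ (i - j + 1) * (v i * R i)), sum_Ico_eq_sum_range]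
      refine sum_congr rfl fun i _ => ?_
      rw [Nat.add_sub_cancel_left]
    have h3 := hback (N + 1 - j) j
    refine (le_of_eq e2).trans ?_
    have h4 : (ph a i0 M j)⁻¹ *
        ∑ i ∈ range (N + 1 - j), q ^ (i + 1) * (v (j + i) * R (j + i)) ≤
        (ph a i0 M j)⁻¹ *
          ((c * δ⁻¹) * (v j * ((c * δ⁻¹) * ((1 + δ) * R j - sh R j)))) :=
      mul_le_mul_of_nonneg_left h3 (inv_nonneg.mpr hpj.le)
    refine h4.trans (le_of_eq ?_)
    rw [← hph2 j]
    field_simp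

end Pool.Agent.Helper80.KE
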